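import Pool.Agent.LibGoldenMean.Moment
import Pool.Agent.LibGoldenMean.KSUpper
import Pool.Agent.LibGoldenMean.ChainErgodic

/-!
The golden-mean chain (the measure of maximal entropy of the golden-mean shift, a two-state
ergodic Markov chain) is not a finitary factor, with an exponentially tailed coding window, of any
i.i.d. process having the same entropy.
-/

open MeasureTheory ProbabilityTheory Filter
open scoped ENNReal

namespace Pool.Agent.Results.MP_207c40_pr.NoEqualEntropyCoding

open Pool.Agent.LibGoldenMean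

/-- for small `θ` the atoms of `ν` satisfy `∫ ν{y}^θ dν ≤ lam^(-θ)` -/
lemma integral_atoms_le {A : Type*} [MeasurableSpace A] [MeasurableSpace.CountablySeparated A]
    [MeasurableSingletonClass A] (ν : Measure A) [IsProbabilityMeasure ν]
    (φ : (ℤ → A) → (ℤ → Bool)) (h : IsExpFinitaryFactor ν chainLaw φ) :
    ∃ θ₀ : ℝ, 0 < θ₀ ∧ ∀ θ : ℝ, 0 < θ → θ < θ₀ →
      ∫ y, ν.real {y} ^ θ ∂ν ≤ Real.exp (-(θ * Real.log lam)) := by
  obtain ⟨D, hD, C, c, hC, hc, hW⟩ := h.window
  have hlp := lam_pos
  have hloglam : 0 < Real.log lam := Real.log_pos one_lt_lam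
  refine ⟨c / (2 * Real.log lam), by positivity, fun θ hθ hθ₀ => ?_⟩
  have hρ : ENNReal.ofReal (Real.exp (-c)) * ENNReal.ofReal (lam ^ 2) ^ θ < 1 := by
    rw [ENNReal.ofReal_rpow_of_pos (by positivity), ← ENNReal.ofReal_mul (Real.exp_pos _).le,
      ← ENNReal.ofReal_one, ENNReal.ofReal_lt_ofReal_iff (by norm_num),
      Real.rpow_def_of_pos (by positivity), Real.log_pow, ← Real.exp_add, ← Real.exp_zero]
    apply Real.exp_lt_exp.2
    rw [lt_div_iff₀ (by positivity)] at hθ₀
    push_cast
    nlinarith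
  obtain ⟨K, hK, hKn⟩ := moment_bound ν φ D h.measurable h.map_eq h.equivariant hD hC hc hW θ hθ hρ
  have h1 : ENNReal.ofReal lam ^ θ * ∫⁻ a, ν {a} ^ θ ∂ν ≤ 1 :=
    le_one_of_pow_bounded hK fun n => by rw [← lintegral_zn ν θ hθ n]; exact hKn n
  have h2 : ∫⁻ a, ν {a} ^ θ ∂ν ≤ ENNReal.ofReal (Real.exp (-(θ * Real.log lam))) := by
    have h3 : ENNReal.ofReal (Real.exp (-(θ * Real.log lam))) * ENNReal.ofReal lam ^ θ = 1 := by
      rw [ENNReal.ofReal_rpow_of_pos hlp, ← ENNReal.ofReal_mul (Real.exp_pos _).le,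
        Real.rpow_def_of_pos hlp, ← Real.exp_add]
      rw [show -(θ * Real.log lam) + Real.log lam * θ = 0 by ring, Real.exp_zero,
        ENNReal.ofReal_one]
    calc ∫⁻ a, ν {a} ^ θ ∂ν = (ENNReal.ofReal (Real.exp (-(θ * Real.log lam))) *
          ENNReal.ofReal lam ^ θ) * ∫⁻ a, ν {a} ^ θ ∂ν := by rw [h3, one_mul]
      _ = ENNReal.ofReal (Real.exp (-(θ * Real.log lam))) *
          (ENNReal.ofReal lam ^ θ * ∫⁻ a, ν {a} ^ θ ∂ν) := by rw [mul_assoc]
      _ ≤ ENNReal.ofReal (Real.exp (-(θ * Real.log lam))) * 1 := by gcongr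
      _ = _ := mul_one _
  have hm := measurable_atom ν
  rw [integral_eq_lintegral_of_nonneg_ae (ae_of_all _ fun y => Real.rpow_nonneg measureReal_nonneg _)
    ((hm.ennreal_toReal.pow_const θ).aestronglyMeasurable)]
  refine ENNReal.toReal_le_of_le_ofReal (Real.exp_pos _).le ?_
  refine le_trans (le_of_eq ?_) h2
  refine lintegral_congr fun y => ?_
  rw [Measure.real, ENNReal.toReal_rpow,
    ENNReal.ofReal_toReal (ENNReal.rpow_ne_top_of_nonneg hθ.le (measure_ne_top _ _))]

/-- Main contradiction. -/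
lemma no_factor {A : Type*} [MeasurableSpace A] [StandardBorelSpace A]
    (ν : Measure A) [IsProbabilityMeasure ν]
    (hks : ksEntropy (iidLaw ν) shift = ksEntropy chainLaw shift)
    (φ : (ℤ → A) → (ℤ → Bool)) (h : IsExpFinitaryFactor ν chainLaw φ) : False := by
  have hlp := lam_pos
  have hloglam : 0 < Real.log lam := Real.log_pos one_lt_lam
  have hks' : ksEntropy (iidLaw ν) shift ≤ ENNReal.ofReal (Real.log lam) := by
    rw [hks]; exact ksEntropy_chain_le
  obtain ⟨θ₀, hθ₀, hup⟩ := integral_atoms_le ν φ h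
  have heq : ∀ θ : ℝ, 0 < θ → θ < θ₀ →
      ∫ y, ν.real {y} ^ θ ∂ν = Real.exp (-(θ * Real.log lam)) := fun θ h0 h1 =>
    le_antisymm (hup θ h0 h1) (exp_le_integral_atoms ν hloglam.le hks' θ h0)
  set θ : ℝ := θ₀ / 2 with hθdef
  have hθ : 0 < θ := by positivity
  have hm : Measurable (fun y : A => ν.real {y}) := (measurable_atom ν).ennreal_toReal
  have hbd : ∀ s : ℝ, 0 < s → Integrable (fun y => ν.real {y} ^ s) ν := by
    intro s hs
    refine Integrable.of_bound (C := 1) (hm.pow_const s).aestronglyMeasurable ?_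
    filter_upwards with y
    rw [Real.norm_eq_abs, abs_of_nonneg (Real.rpow_nonneg measureReal_nonneg _)]
    exact Real.rpow_le_one measureReal_nonneg measureReal_le_one hs.le
  set e : ℝ := Real.exp (-(θ / 2 * Real.log lam)) with he
  have hee : e * e = Real.exp (-(θ * Real.log lam)) := by
    rw [he, ← Real.exp_add]; congr 1; ring
  have hzero : ∫ y, (ν.real {y} ^ (θ / 2) - e) ^ 2 ∂ν = 0 := by
    have h1 : ∀ y : A, (ν.real {y} ^ (θ / 2) - e) ^ 2 =
        ν.real {y} ^ θ - 2 * e * ν.real {y} ^ (θ / 2) + e * e := by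
      intro y
      have h2 : ν.real {y} ^ θ = ν.real {y} ^ (θ / 2) * ν.real {y} ^ (θ / 2) := by
        rw [← Real.rpow_add_of_nonneg measureReal_nonneg (by positivity) (by positivity)]
        congr 1; ring
      rw [h2]; ring
    simp_rw [h1]
    have hi2 : Integrable (fun y : A => 2 * e * ν.real {y} ^ (θ / 2)) ν :=
      (hbd (θ / 2) (by positivity)).const_mul _
    have hi3 : Integrable (fun y : A => ν.real {y} ^ θ - 2 * e * ν.real {y} ^ (θ / 2)) ν :=
      (hbd θ hθ).sub hi2
    rw [integral_add hi3 (integrable_const _), integral_sub (hbd θ hθ) hi2,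
      integral_const_mul, heq θ hθ (by rw [hθdef]; linarith),
      heq (θ / 2) (by positivity) (by rw [hθdef]; linarith)]
    simp only [integral_const, probReal_univ, smul_eq_mul, one_mul]
    rw [← he, ← hee]; ring
  have hae : ∀ᵐ y ∂ν, ν.real {y} = lam⁻¹ := by
    have hint : Integrable (fun y : A => (ν.real {y} ^ (θ / 2) - e) ^ 2) ν := by
      have : Integrable (fun y : A => ν.real {y} ^ θ - 2 * e * ν.real {y} ^ (θ / 2) + e * e) ν :=
        ((hbd θ hθ).sub ((hbd (θ / 2) (by positivity)).const_mul _)).add (integrable_const _)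
      refine this.congr (ae_of_all _ fun y => ?_)
      have h2 : ν.real {y} ^ θ = ν.real {y} ^ (θ / 2) * ν.real {y} ^ (θ / 2) := by
        rw [← Real.rpow_add_of_nonneg measureReal_nonneg (by positivity) (by positivity)]
        congr 1; ring
      simp only
      rw [h2]; ring
    have h3 := (integral_eq_zero_iff_of_nonneg (fun y : A => sq_nonneg _) hint).1 hzero
    filter_upwards [h3] with y hy
    simp only [Pi.zero_apply] at hy
    have h4 : ν.real {y} ^ (θ / 2) = e := by
      have := pow_eq_zero_iff (two_ne_zero) |>.1 hy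
      linarith
    have h5 : (ν.real {y} ^ (θ / 2)) ^ ((θ / 2)⁻¹) = ν.real {y} := by
      rw [← Real.rpow_mul measureReal_nonneg, mul_inv_cancel₀ (by positivity), Real.rpow_one]
    rw [← h5, h4, he, ← Real.exp_mul, show -(θ / 2 * Real.log lam) * (θ / 2)⁻¹ = -Real.log lam by
      field_simp, Real.exp_neg, Real.exp_log hlp]
  obtain ⟨y0, hy0⟩ := hae.exists
  have hcompl : ν.real {y0}ᶜ = 1 - lam⁻¹ := by
    rw [probReal_compl_eq_one_sub (measurableSet_singleton y0), hy0]
  have hpos : 0 < ν.real {y0}ᶜ := by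
    rw [hcompl, lam_inv]; linarith [lam_lt_two]
  obtain ⟨y1, hy1, hne⟩ : ∃ y, ν.real {y} = lam⁻¹ ∧ y ∈ ({y0}ᶜ : Set A) := by
    by_contra hcon
    push Not at hcon
    have : ν ({y0}ᶜ : Set A) = 0 := by
      rw [measure_eq_zero_iff_ae_notMem]
      filter_upwards [hae] with y hy using hcon y hy
    rw [Measure.real, this] at hpos
    simp at hpos
  have hsub : ν.real {y1} ≤ ν.real {y0}ᶜ := measureReal_mono (by
    intro y hy
    rw [Set.mem_singleton_iff] at hy
    rw [hy]; exact hne)
  rw [hy1, hcompl, lam_inv] at hsub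
  have h2 := one_lt_lam
  have h3 := lam_sq
  nlinarith

universe u

/-- There is a stationary Markov chain on a countable (indeed two-point) state space that is
irreducible, aperiodic, positive recurrent and has exponential return times, such that for every
i.i.d. process (with values in any standard Borel space) of the same Kolmogorov-Sinai entropy, no
map is a finitary factor map from the i.i.d. process onto the chain with exponentially tailed
coding window. -/
theorem result :
    ∃ (μ : Measure (ℤ → Bool)) (π : Bool → ℝ≥0∞) (P : Bool → Bool → ℝ≥0∞),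
      IsStationaryMarkovChain μ π P ∧ IsErgodicChain μ π P ∧ HasExpReturnTimes μ ∧
      ∀ (A : Type u) [MeasurableSpace A] [StandardBorelSpace A] (ν : Measure A)
        [IsProbabilityMeasure ν],
        ksEntropy (iidLaw ν) shift = ksEntropy μ shift →
          ¬ ∃ φ : (ℤ → A) → (ℤ → Bool), IsExpFinitaryFactor ν μ φ := by
  refine ⟨chainLaw, stat, trans, isStationaryMarkovChain_chain, isErgodicChain_chain,
    hasExpReturnTimes_chain, ?_⟩
  intro A _ _ ν _ hks
  rintro ⟨φ, hφ⟩
  exact no_factor ν hks φ hφ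

end Pool.Agent.Results.MP_207c40_pr.NoEqualEntropyCoding
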